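import Pool.Agent.Q164.SN.Primes

/-!
# Reciprocal supernorms over partitions of fixed size
-/

set_option autoImplicit false

namespace Pool.Agent.Results.MP_c6faf2_co.SupernormLimit

open Filter Topology

/-- The `k`-th prime, `prime 1 = 2`, `prime 2 = 3`, ... -/
noncomputable def prime (k : ℕ) : ℕ := Nat.nth Nat.Prime (k - 1)

/-- The supernorm of a partition: the product of the primes indexed by its parts. -/
noncomputable def supernorm {n : ℕ} (p : Nat.Partition n) : ℕ := (p.parts.map prime).prod

/-- The sum of the reciprocal supernorms of the partitions of `n`. -/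
noncomputable def Wsize (n : ℕ) : ℝ := ∑ p : Nat.Partition n, 1 / (supernorm p : ℝ)

/-- **Question 1 (true).** `n · W_size(n) → e^γ`. -/
theorem result : Tendsto (fun n : ℕ => (n : ℝ) * Wsize n) atTop
    (𝓝 (Real.exp Real.eulerMascheroniConstant)) := by
  refine Pool.Agent.Q164.SN.W_tendsto.congr fun n => ?_
  congr 1
  unfold Pool.Agent.Q164.SN.W Wsize
  refine Finset.sum_congr rfl fun p _ => ?_
  unfold Pool.Agent.Q164.SN.wt supernorm
  induction p.parts using Multiset.induction_on with
  | empty => simp
  | cons k s ih =>
    rw [Multiset.map_cons, Multiset.prod_cons, ih, Multiset.map_cons, Multiset.prod_cons]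
    unfold Pool.Agent.Q164.SN.ap Pool.Agent.Q164.SN.pk prime
    push_cast
    rw [one_div_mul_one_div]

end Pool.Agent.Results.MP_c6faf2_co.SupernormLimit
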